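import Pool.Agent.Helper98.GX.St4
import Pool.Agent.Helper53.CX.M_Glc

/-!
# Project GX, module GLA: equality in the stability estimate
-/

set_option autoImplicit false

open scoped BigOperators

namespace Pool.Agent.Helper94.GX

open Pool.Agent.Helper98.GX
open Pool.Agent.Helper53.CX (DivVal LinSys IsNefCartier)

/-- the component in a block -/
private def cmp {N r : ℕ} (bl : Fin N → Fin r) (l : Fin r) : (Fin N → ℂ) →ₗ[ℂ] (Fin N → ℂ) where
  toFun x a := if bl a = l then x a else 0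
  map_add' x y := by
    funext a
    by_cases h : bl a = l <;> simp [h]
  map_smul' c x := by
    funext a
    by_cases h : bl a = l <;> simp [h]

private lemma cmp_apply {N r : ℕ} (bl : Fin N → Fin r) (l : Fin r) (x : Fin N → ℂ) (a : Fin N) :
    cmp bl l x a = if bl a = l then x a else 0 := rfl

private lemma cmp_mem {N r : ℕ} (bl : Fin N → Fin r) (l : Fin r) (x : Fin N → ℂ) :
    cmp bl l x ∈ Blk bl l := by
  intro a ha
  rw [cmp_apply, if_neg ha]

private lemma cmp_self {N r : ℕ} {bl : Fin N → Fin r} {l : Fin r} {x : Fin N → ℂ}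
    (hx : x ∈ Blk bl l) : cmp bl l x = x := by
  funext a
  rw [cmp_apply]
  by_cases h : bl a = l
  · rw [if_pos h]
  · rw [if_neg h, hx a h]

private lemma cmp_ne {N r : ℕ} {bl : Fin N → Fin r} {l l' : Fin r} {x : Fin N → ℂ}
    (hx : x ∈ Blk bl l) (h : l' ≠ l) : cmp bl l' x = 0 := by
  funext a
  rw [cmp_apply]
  by_cases h' : bl a = l'
  · rw [if_pos h', hx a (by rw [h']; exact h)]
    rfl
  · rw [if_neg h']
    rfl

private lemma sum_cmp {N r : ℕ} (bl : Fin N → Fin r) (x : Fin N → ℂ) : ∑ l, cmp bl l x = x := by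
  funext a
  rw [Finset.sum_apply]
  simp only [cmp_apply]
  rw [Finset.sum_ite_eq]
  simp

private lemma finrank_Blk {N r : ℕ} (bl : Fin N → Fin r) (l : Fin r) :
    Module.finrank ℂ (Blk bl l) = Fintype.card {a // bl a = l} := by
  let E : Blk bl l ≃ₗ[ℂ] ({a // bl a = l} → ℂ) :=
    { toFun := fun x a => (x : Fin N → ℂ) a
      invFun := fun y => ⟨fun a => if h : bl a = l then y ⟨a, h⟩ else 0, fun a ha => dif_neg ha⟩
      left_inv := by
        rintro ⟨x, hx⟩
        apply Subtype.ext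
        funext a
        change (if h : bl a = l then x a else 0) = x a
        by_cases h : bl a = l
        · rw [dif_pos h]
        · rw [dif_neg h, hx a h]
      right_inv := by
        intro y
        funext ⟨a, ha⟩
        change (if h : bl a = l then y ⟨a, h⟩ else 0) = y ⟨a, ha⟩
        rw [dif_pos ha]
      map_add' := fun x y => rfl
      map_smul' := fun c x => rfl }
  rw [E.finrank_eq, Module.finrank_fintype_fun_eq_card]

/-- a graded matrix adapted to chains in the blocks -/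
private lemma adapt {n r : ℕ} (bl : Fin (n + 1) → Fin r)
    (F : ℕ → Fin r → Submodule ℂ (Fin (n + 1) → ℂ)) (mono : ∀ l, Monotone fun j => F j l) (M : ℕ)
    (hM : ∀ l, F M l = Blk bl l) :
    ∃ T : Matrix (Fin (n + 1)) (Fin (n + 1)) ℂ, IsUnit T.det ∧ Graded bl T ∧
      ∀ j ≤ M, ∀ l, F j l ≤ Submodule.span ℂ (T '' {a | bl a = l ∧ T a ∈ F j l}) := by
  classical
  choose B h1 h2 h3 using fun l => Pool.Agent.Helper53.CX.Glc_chain (fun j => F j l) (mono l) M
  have hfin : ∀ l, (B l).Finite := fun l => LinearIndependent.setFinite (h1 l)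
  have hft : ∀ l, Fintype (B l) := fun l => (hfin l).fintype
  have hsp : ∀ l, Submodule.span ℂ (B l) = Blk bl l := by
    intro l
    apply le_antisymm
    · rw [Submodule.span_le, ← hM l]
      exact h2 l
    · rw [← hM l]
      exact (h3 l M le_rfl).trans (Submodule.span_mono Set.inter_subset_left)
  have hcard : ∀ l, Fintype.card {a // bl a = l} = Fintype.card (B l) := by
    intro l
    rw [← finrank_Blk, ← hsp l, finrank_span_set_eq_card (h1 l), Set.toFinset_card]
  let e : ∀ l, {a // bl a = l} ≃ B l := fun l => Fintype.equivOfCardEq (hcard l)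
  let T : Matrix (Fin (n + 1)) (Fin (n + 1)) ℂ := fun a => (e (bl a) ⟨a, rfl⟩ : Fin (n + 1) → ℂ)
  have hTB : ∀ a, T a ∈ B (bl a) := fun a => (e (bl a) ⟨a, rfl⟩).2
  have hTsur : ∀ l, ∀ b ∈ B l, ∃ a, bl a = l ∧ T a = b := by
    intro l b hb
    obtain ⟨⟨a, ha⟩, hab⟩ := (e l).surjective ⟨b, hb⟩
    subst ha
    refine ⟨a, rfl, ?_⟩
    change ((e (bl a) ⟨a, rfl⟩ : B (bl a)) : Fin (n + 1) → ℂ) = b
    rw [hab]
  have hTblk : ∀ a, T a ∈ Blk bl (bl a) := by
    intro a
    rw [← hsp]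
    exact Submodule.subset_span (hTB a)
  have hspan : ⊤ ≤ Submodule.span ℂ (Set.range T) := by
    intro x _
    rw [← sum_cmp bl x]
    refine Submodule.sum_mem _ fun l _ => ?_
    have h4 : cmp bl l x ∈ Submodule.span ℂ (B l) := by
      rw [hsp]
      exact cmp_mem bl l x
    refine (Submodule.span_mono ?_) h4
    intro b hb
    obtain ⟨a, -, ha⟩ := hTsur l b hb
    exact ⟨a, ha⟩
  have hli : LinearIndependent ℂ T.row :=
    linearIndependent_of_top_le_span_of_card_eq_finrank hspan (by simp)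
  refine ⟨T, ?_, ?_, ?_⟩
  · rw [← Matrix.isUnit_iff_isUnit_det]
    exact Matrix.linearIndependent_rows_iff_isUnit.1 hli
  · intro a b hab
    by_contra h
    exact hab (hTblk a b h)
  · intro j hj l
    refine (h3 l j hj).trans (Submodule.span_mono ?_)
    rintro b ⟨hb, hbF⟩
    obtain ⟨a, ha, hab⟩ := hTsur l b hb
    refine ⟨a, ⟨ha, ?_⟩, hab⟩
    rw [hab]
    exact hbF

/-- the filtration of a block -/
private def VV {N r : ℕ} (bl : Fin N → Fin r) (val : (Fin N → ℂ) → ℤ)
    (h1 : ∀ k, ∀ x ∈ Blk bl k, x ≠ 0 → ∀ c : ℂ, c ≠ 0 → val (c • x) = val x)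
    (h2 : ∀ k, ∀ x ∈ Blk bl k, ∀ y ∈ Blk bl k, x ≠ 0 → y ≠ 0 → x + y ≠ 0 →
      min (val x) (val y) ≤ val (x + y)) (k : ℤ) (l : Fin r) : Submodule ℂ (Fin N → ℂ) where
  carrier := {x | x ∈ Blk bl l ∧ (x = 0 ∨ k ≤ val x)}
  zero_mem' := ⟨Submodule.zero_mem _, Or.inl rfl⟩
  add_mem' := by
    rintro x y ⟨hx, hx'⟩ ⟨hy, hy'⟩
    refine ⟨Submodule.add_mem _ hx hy, ?_⟩
    by_cases hx0 : x = 0
    · subst hx0
      rw [zero_add]
      exact hy'
    by_cases hy0 : y = 0
    · subst hy0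
      rw [add_zero]
      exact hx'
    by_cases h : x + y = 0
    · exact Or.inl h
    · right
      exact (le_min (hx'.resolve_left hx0) (hy'.resolve_left hy0)).trans
        (h2 l x hx y hy hx0 hy0 h)
  smul_mem' := by
    rintro c x ⟨hx, hx'⟩
    refine ⟨Submodule.smul_mem _ c hx, ?_⟩
    by_cases hc : c = 0
    · left
      rw [hc, zero_smul]
    by_cases hx0 : x = 0
    · left
      rw [hx0, smul_zero]
    · right
      rw [h1 l x hx hx0 c hc]
      exact hx'.resolve_left hx0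

private lemma sum_c {N r : ℕ} {bl : Fin N → Fin r} (Φ : Fam bl) : ∑ i, Φ.c i = (N : ℝ) := by
  have h1 : ∑ k, (∑ i, if Φ.bI i = k then Φ.c i else 0) = ∑ i, Φ.c i := by
    rw [Finset.sum_comm]
    refine Finset.sum_congr rfl fun i _ => ?_
    rw [Finset.sum_ite_eq]
    simp
  rw [← h1, Finset.sum_congr rfl fun k _ => Φ.sum k]
  have h2 : ∑ k, (Finset.univ.filter fun a => bl a = k).card = N := by
    have := Finset.card_eq_sum_card_fiberwise (s := (Finset.univ : Finset (Fin N)))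
      (t := (Finset.univ : Finset (Fin r))) (f := bl) (fun a _ => Finset.mem_coe.2 (Finset.mem_univ _))
    rw [Finset.card_univ, Fintype.card_fin] at this
    exact this.symm
  exact_mod_cast h2

open Classical in
private lemma main {n r : ℕ} (bl : Fin (n + 1) → Fin r) (Φ : Fam bl)
    (val : (Fin (n + 1) → ℂ) → ℤ) (mW : Φ.I → ℤ) (A : ℤ)
    (T : Matrix (Fin (n + 1)) (Fin (n + 1)) ℂ)
    (h1 : ∀ k, ∀ x ∈ Blk bl k, x ≠ 0 → ∀ c : ℂ, c ≠ 0 → val (c • x) = val x)
    (h2 : ∀ k, ∀ x ∈ Blk bl k, ∀ y ∈ Blk bl k, x ≠ 0 → y ≠ 0 → x + y ≠ 0 →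
      min (val x) (val y) ≤ val (x + y))
    (h3 : ∀ i, (∀ x ∈ Φ.W i, x ≠ 0 → mW i ≤ val x) ∧ ∃ x ∈ Φ.W i, x ≠ 0 ∧ val x = mW i)
    (hst : Φ.Stable) (hT : IsUnit T.det) (hgr : Graded bl T) (had : Φ.Adapted T)
    (h4 : ∀ T' : Matrix (Fin (n + 1)) (Fin (n + 1)) ℂ, IsUnit T'.det → Graded bl T' →
      ∑ a, val (T' a) ≤ A)
    (h5 : ∑ i, Φ.c i * (mW i : ℝ) = (A : ℝ)) : ∑ a, val (T a) = A := by
  have hVmem : ∀ k l x, x ∈ VV bl val h1 h2 k l ↔ x ∈ Blk bl l ∧ (x = 0 ∨ k ≤ val x) :=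
    fun k l x => Iff.rfl
  set U : ℤ → Submodule ℂ (Fin (n + 1) → ℂ) :=
    fun k => ⨅ l, (VV bl val h1 h2 k l).comap (cmp bl l) with hUdef
  have hUmem : ∀ k x, x ∈ U k ↔ ∀ l, cmp bl l x ∈ VV bl val h1 h2 k l := by
    intro k x
    rw [hUdef]
    simp only [Submodule.mem_iInf, Submodule.mem_comap]
  have hUblk : ∀ k l x, x ∈ Blk bl l → (x ∈ U k ↔ x = 0 ∨ k ≤ val x) := by
    intro k l x hx
    rw [hUmem]
    constructor
    · intro h
      have := h l
      rw [cmp_self hx, hVmem] at this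
      exact this.2
    · intro h l'
      by_cases hl : l' = l
      · subst hl
        rw [cmp_self hx, hVmem]
        exact ⟨hx, h⟩
      · rw [cmp_ne hx hl]
        exact Submodule.zero_mem _
  -- rows of invertible graded matrices
  have hrow0 : ∀ T' : Matrix (Fin (n + 1)) (Fin (n + 1)) ℂ, IsUnit T'.det → ∀ a, T' a ≠ 0 := by
    intro T' hT' a
    rw [← Matrix.isUnit_iff_isUnit_det] at hT'
    exact (Matrix.linearIndependent_rows_iff_isUnit.2 hT').ne_zero a
  have hrowB : ∀ T' : Matrix (Fin (n + 1)) (Fin (n + 1)) ℂ, Graded bl T' →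
      ∀ a, T' a ∈ Blk bl (bl a) := by
    intro T' hT' a b hb
    by_contra h
    exact hb (hT' a b h)
  -- lower end
  set k0 : ℤ := -∑ a, |val (Pi.single a 1)| with hk0
  have hk0s : ∀ a, k0 ≤ val (Pi.single a 1) := by
    intro a
    have h6 : |val (Pi.single a 1)| ≤ ∑ a, |val (Pi.single a 1)| :=
      Finset.single_le_sum (f := fun a => |val (Pi.single a 1)|) (fun _ _ => abs_nonneg _)
        (Finset.mem_univ a)
    have h7 := neg_abs_le (val (Pi.single a 1))
    rw [hk0]
    linarith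
  have hVk0 : ∀ l, VV bl val h1 h2 k0 l = Blk bl l := by
    intro l
    apply le_antisymm
    · intro x hx
      exact ((hVmem _ _ _).1 hx).1
    · intro x hx
      rw [← Finset.univ_sum_single x]
      refine Submodule.sum_mem _ fun a _ => ?_
      have h6 : (Pi.single a (x a) : Fin (n + 1) → ℂ) = x a • Pi.single a 1 := by
        rw [← Pi.single_smul, smul_eq_mul, mul_one]
      rw [h6]
      by_cases ha : bl a = l
      · refine Submodule.smul_mem _ _ ?_
        rw [hVmem]
        refine ⟨?_, Or.inr (hk0s a)⟩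
        intro b hb
        exact Pi.single_eq_of_ne (fun h => hb (by rw [h]; exact ha)) _
      · rw [hx a ha, zero_smul]
        exact Submodule.zero_mem _
  have hk0le : ∀ l, ∀ x ∈ Blk bl l, x ≠ 0 → k0 ≤ val x := by
    intro l x hx hx0
    rw [← hVk0 l, hVmem] at hx
    exact hx.2.resolve_left hx0
  have hWU : ∀ i k, Φ.W i ≤ U k ↔ k ≤ mW i := by
    intro i k
    obtain ⟨h6, c', hc', hc0, hval⟩ := h3 i
    constructor
    · intro h
      have h7 := h hc'
      rw [hUblk k (Φ.bI i) c' (Φ.le i hc')] at h7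
      rcases h7 with h7 | h7
      · exact absurd h7 hc0
      · rw [hval] at h7
        exact h7
    · intro h d hd
      rw [hUblk k (Φ.bI i) d (Φ.le i hd)]
      by_cases hd0 : d = 0
      · exact Or.inl hd0
      · exact Or.inr (h.trans (h6 d hd hd0))
  have hWk0 : ∀ i, k0 ≤ mW i := by
    intro i
    obtain ⟨-, c', hc', hc0, hval⟩ := h3 i
    rw [← hval]
    exact hk0le _ c' (Φ.le i hc') hc0
  -- upper end
  obtain ⟨k1, hk01, hk1⟩ : ∃ k1 : ℤ, k0 ≤ k1 ∧ ∀ i, mW i ≤ k1 := by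
    refine ⟨k0 + ∑ i, (mW i - k0), ?_, ?_⟩
    · have : 0 ≤ ∑ i, (mW i - k0) :=
        Finset.sum_nonneg fun i _ => by linarith [hWk0 i]
      linarith
    · intro i
      have h6 : mW i - k0 ≤ ∑ i, (mW i - k0) :=
        Finset.single_le_sum (f := fun i => mW i - k0)
          (fun i _ => by linarith [hWk0 i]) (Finset.mem_univ i)
      linarith
  -- the filtration formula
  have hform : ∀ i, (mW i : ℝ) = (k0 : ℝ) +
      ∑ k ∈ Finset.Ioc k0 k1, (if Φ.W i ≤ U k then (1 : ℝ) else 0) := by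
    intro i
    have h6 : ∑ k ∈ Finset.Ioc k0 k1, (if Φ.W i ≤ U k then (1 : ℝ) else 0) =
        (((Finset.Ioc k0 k1).filter (fun k => Φ.W i ≤ U k)).card : ℝ) := by
      rw [Finset.card_filter]
      push_cast
      rfl
    have h7 : (Finset.Ioc k0 k1).filter (fun k => Φ.W i ≤ U k) = Finset.Ioc k0 (mW i) := by
      ext k
      rw [Finset.mem_filter, Finset.mem_Ioc, Finset.mem_Ioc, hWU]
      have := hk1 i
      constructor
      · rintro ⟨⟨a, -⟩, b⟩
        exact ⟨a, b⟩
      · rintro ⟨a, b⟩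
        exact ⟨⟨a, b.trans this⟩, b⟩
    rw [h6, h7, Int.card_Ioc]
    have h8 : (((mW i - k0).toNat : ℤ) : ℝ) = ((mW i - k0 : ℤ) : ℝ) := by
      rw [Int.toNat_of_nonneg (by linarith [hWk0 i])]
    rw [Int.cast_natCast] at h8
    rw [h8]
    push_cast
    ring
  have hsumform : ∑ i, Φ.c i * (mW i : ℝ) = ((n : ℝ) + 1) * k0 +
      ∑ k ∈ Finset.Ioc k0 k1, Φ.w (U k) := by
    have h6 : ∀ i, Φ.c i * (mW i : ℝ) = Φ.c i * k0 +
        ∑ k ∈ Finset.Ioc k0 k1, (if Φ.W i ≤ U k then Φ.c i else 0) := by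
      intro i
      rw [hform i, mul_add, Finset.mul_sum]
      congr 1
      refine Finset.sum_congr rfl fun k _ => ?_
      split_ifs <;> simp
    have h7 := sum_c Φ
    push_cast at h7
    rw [Finset.sum_congr rfl fun i _ => h6 i, Finset.sum_add_distrib, ← Finset.sum_mul, h7,
      Finset.sum_comm]
    rfl
  -- adapted matrix
  set M : ℕ := (k1 - k0).toNat with hM
  have hMk : (M : ℤ) = k1 - k0 := Int.toNat_of_nonneg (by linarith)
  obtain ⟨T', hT', hgr', hTd⟩ := adapt bl (fun j l => VV bl val h1 h2 (k1 - j) l)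
    (by
      intro l i j hij x hx
      have h6 : (i : ℤ) ≤ j := by exact_mod_cast hij
      change x ∈ VV bl val h1 h2 (k1 - i) l at hx
      change x ∈ VV bl val h1 h2 (k1 - j) l
      rw [hVmem] at hx ⊢
      exact ⟨hx.1, hx.2.imp id (fun h => by linarith)⟩) M (by
      intro l
      rw [hMk, ← hVk0 l]
      congr 1
      ring)
  set J' : ℤ → Finset (Fin (n + 1)) := fun k => Finset.univ.filter (fun i => T' i ∈ U k) with hJ'
  have hdim' : ∀ k ∈ Finset.Ioc k0 k1, Module.finrank ℂ (U k) ≤ (J' k).card := by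
    intro k hk
    rw [Finset.mem_Ioc] at hk
    have h6 : ((k1 - k).toNat : ℤ) = k1 - k := Int.toNat_of_nonneg (by linarith)
    have h7 : U k ≤ Submodule.span ℂ (((J' k).image T' : Finset (Fin (n + 1) → ℂ)) :
        Set (Fin (n + 1) → ℂ)) := by
      intro x hx
      rw [hUmem] at hx
      rw [← sum_cmp bl x]
      refine Submodule.sum_mem _ fun l _ => ?_
      have h8 := hTd (k1 - k).toNat (by omega) l
      rw [h6] at h8
      have h9 : k1 - (k1 - k) = k := by ring
      rw [h9] at h8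
      refine (Submodule.span_mono ?_) (h8 (hx l))
      rintro b ⟨a, ⟨ha, haV⟩, hab⟩
      rw [Finset.coe_image]
      refine ⟨a, ?_, hab⟩
      rw [hJ']
      simp only [Finset.coe_filter, Finset.mem_univ, true_and, Set.mem_ofPred_eq]
      rw [hVmem] at haV
      rw [hUblk k l _ haV.1]
      exact haV.2
    calc Module.finrank ℂ (U k) ≤ Module.finrank ℂ (Submodule.span ℂ
        (((J' k).image T' : Finset (Fin (n + 1) → ℂ)) : Set (Fin (n + 1) → ℂ))) :=
          Submodule.finrank_mono h7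
      _ ≤ ((J' k).image T').card := finrank_span_finset_le_card _
      _ ≤ (J' k).card := Finset.card_image_le
  have hcount' := Pool.Agent.Helper53.CX.Glc_count (fun i => val (T' i)) k0 k1
    (fun i => hk0le _ _ (hrowB T' hgr' i) (hrow0 T' hT' i)) J' (by
    intro k _ i hi
    rw [hJ', Finset.mem_filter, hUblk k _ _ (hrowB T' hgr' i)] at hi
    exact hi.2.resolve_left (hrow0 T' hT' i))
  have hb' := h4 T' hT' hgr'
  have hdimsum : ((n : ℝ) + 1) * k0 + ∑ k ∈ Finset.Ioc k0 k1, (Module.finrank ℂ (U k) : ℝ) ≤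
      (A : ℝ) := by
    have h6 : (((n + 1 : ℕ) : ℤ) * k0 + ∑ k ∈ Finset.Ioc k0 k1, ((J' k).card : ℤ)) ≤ A :=
      hcount'.trans hb'
    have h7 : ((((n + 1 : ℕ) : ℤ) * k0 + ∑ k ∈ Finset.Ioc k0 k1, ((J' k).card : ℤ) : ℤ) : ℝ) ≤
        (A : ℝ) := by exact_mod_cast h6
    push_cast at h7
    refine le_trans ?_ h7
    have h8 : ∑ k ∈ Finset.Ioc k0 k1, (Module.finrank ℂ (U k) : ℝ) ≤
        ∑ k ∈ Finset.Ioc k0 k1, ((J' k).card : ℝ) :=
      Finset.sum_le_sum fun k hk => by exact_mod_cast hdim' k hk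
    linarith
  -- equality for every `k`
  have heq : ∀ k ∈ Finset.Ioc k0 k1, Φ.w (U k) = (Module.finrank ℂ (U k) : ℝ) := by
    have h6 : ∑ k ∈ Finset.Ioc k0 k1, ((Module.finrank ℂ (U k) : ℝ) - Φ.w (U k)) = 0 := by
      apply le_antisymm
      · rw [Finset.sum_sub_distrib]
        linarith
      · exact Finset.sum_nonneg fun k _ => by
          have := hst (U k)
          linarith
    intro k hk
    have h7 := (Finset.sum_eq_zero_iff_of_nonneg (fun k _ => by
      have := hst (U k)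
      linarith)).1 h6 k hk
    linarith
  -- the subspaces are spanned by rows of `T`
  have hex : ∀ k, ∃ J : Finset (Fin (n + 1)), k ∈ Finset.Ioc k0 k1 →
      U k = Submodule.span ℂ (T '' (J : Set (Fin (n + 1)))) := by
    intro k
    by_cases hk : k ∈ Finset.Ioc k0 k1
    · obtain ⟨J, hJ⟩ := had (U k) (heq k hk)
      exact ⟨J, fun _ => hJ⟩
    · exact ⟨∅, fun h => absurd h hk⟩
  choose J hJ using hex
  have hJcard : ∀ k ∈ Finset.Ioc k0 k1, Module.finrank ℂ (U k) ≤ (J k).card := by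
    intro k hk
    rw [hJ k hk]
    have h6 : (T '' (J k : Set (Fin (n + 1)))) = (((J k).image T : Finset (Fin (n + 1) → ℂ)) :
        Set (Fin (n + 1) → ℂ)) := by
      rw [Finset.coe_image]
    rw [h6]
    exact (finrank_span_finset_le_card _).trans Finset.card_image_le
  have hcount := Pool.Agent.Helper53.CX.Glc_count (fun i => val (T i)) k0 k1
    (fun i => hk0le _ _ (hrowB T hgr i) (hrow0 T hT i)) J (by
    intro k hk i hi
    have h6 : T i ∈ U k := by
      rw [hJ k hk]
      exact Submodule.subset_span ⟨i, hi, rfl⟩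
    rw [hUblk k _ _ (hrowB T hgr i)] at h6
    exact h6.resolve_left (hrow0 T hT i))
  apply le_antisymm (h4 T hT hgr)
  refine le_trans ?_ hcount
  have h6 : (A : ℝ) ≤ (((n + 1 : ℕ) : ℤ) * k0 + ∑ k ∈ Finset.Ioc k0 k1,
      ((J k).card : ℤ) : ℤ) := by
    rw [← h5, hsumform]
    push_cast
    have h7 : ∑ k ∈ Finset.Ioc k0 k1, Φ.w (U k) ≤ ∑ k ∈ Finset.Ioc k0 k1, ((J k).card : ℝ) :=
      Finset.sum_le_sum fun k hk => by
        rw [heq k hk]
        exact_mod_cast hJcard k hk
    linarith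
  exact_mod_cast h6

theorem hGLA : StGLA := by
  intro N r bl Φ val mW A T h1 h2 h3 hst hT hgr had h4 h5
  cases N with
  | zero =>
    have hI : IsEmpty Φ.I := by
      refine ⟨fun i => Φ.ne i ?_⟩
      rw [Submodule.eq_bot_iff]
      intro x _
      exact Subsingleton.elim _ _
    have h6 : (A : ℝ) = 0 := by
      rw [← h5]
      exact Finset.sum_of_isEmpty _
    have h7 : A = 0 := by exact_mod_cast h6
    rw [h7]
    exact Finset.sum_of_isEmpty _
  | succ n => exact main bl Φ val mW A T h1 h2 h3 hst hT hgr had h4 h5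

end Pool.Agent.Helper94.GX
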